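import Pool.Agent.N430.BP.PathM

/-!
# The Euler products at the central points of the odd cohomology of products of curves over `ℚ`

Let `a j, b j, c j ∈ ℤ[X]` (`j < m`) with `c j` monic of odd degree `n_j = 2 g_j + 1`,
`deg (a j) ≤ n_j - 3`, `deg (b j) ≤ n_j - 2`, `(b j)² - 4 (a j) (c j) ≠ 0`, and for integers `u`, `v` let
`C_j(u, v)` be the curve `y² = a_j(x) (u x + v)² + b_j(x) (u x + v) + c_j(x)` (for `n_j = 3`, `a_j = 0`,
`b_j = 1`, `c_j = x³` these are all elliptic curves `y² = x³ + u x + v`).  For `z = (u_j, v_j)_j` let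
`X_z = C_0(u_0, v_0) × ⋯ × C_{m-1}(u_{m-1}, v_{m-1})`, a variety of dimension `m` over `ℚ`.

The conjecture of Beilinson and Bloch predicts the order of vanishing of `L(H^(2i-1)(X_z), s)` at `s = i`,
that is, the growth of the partial Euler products at this point.  The theorem: for almost all `z` in an
arbitrary box with sides `N` the product of the Euler factors over the odd primes `p ≤ x` at `s = i` is
`(log x)^(-(R + M/2) + o(1))`, for *all* `x` up to a power of `N`, with an explicit error term and with a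
bound for the number of the exceptions, where

* `R = binom(m - 1, i - 1) ∑_j r_j`, and `r_j` is the rank of the Jacobian of the curve
  `y² = a_j(x) w² + b_j(x) w + c_j(x)` over `ℚ(w)`, in the form of an explicit formula.  The sections
  of the Jacobians of the factors, multiplied by points of `i - 1` of the other `m - 1` factors, give
  `R` homologically trivial cycles of codimension `i` on the members of the family;
* `M` is the coefficient of `T^(2i-1)` in `(1 + T + T²)^m`: the number of the constituents of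
  `H^(2i-1)(X_z)`, if the monodromy group is the product of the symplectic groups.  They are symplectic,
  each contributes `1/2` to the mean value of the order of vanishing.
-/

set_option autoImplicit false

namespace Pool.Agent.Results.MP_0b9e0b_ag.CentralProductsOfCurveProducts

open Polynomial Finset

/-- The polynomial `a(x) (u x + v)² + b(x) (u x + v) + c(x)`. -/
noncomputable def family (a b c : ℤ[X]) (w : ℤ × ℤ) : ℤ[X] :=
  a * (C w.1 * X + C w.2) ^ 2 + b * (C w.1 * X + C w.2) + c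

/-- For a prime `p` and `k ≥ 1`: the number of the points of the affine curve `y² = f(x)` over the field
with `p ^ k` elements, minus `p ^ k`.  It is minus the trace of the `k`-th power of the Frobenius on the
first cohomology of the curve, if `f` is monic of odd degree and `p` is an odd prime of good reduction. -/
noncomputable def trace (f : ℤ[X]) (p k : ℕ) : ℝ :=
  if h : p.Prime then
    haveI : Fact p.Prime := ⟨h⟩
    (Nat.card {P : GaloisField p k × GaloisField p k // P.2 ^ 2 = aeval P.1 f} : ℝ) - (p : ℝ) ^ k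
  else 0

/-- The trace of the `k`-th power of the Frobenius at `p` on the cohomology of degree `n` of the product
of the curves `y² = f j (x)`, by Künneth: the coefficient of `T ^ n` in the product of the polynomials
`1 + A_j T + p ^ k T²`, where `A_j` is the trace on the first cohomology of the factor. -/
noncomputable def traceH {m : ℕ} (f : Fin m → ℤ[X]) (n p k : ℕ) : ℝ :=
  (∏ j, (1 + C (-trace (f j) p k) * X + C ((p : ℝ) ^ k) * X ^ 2 : ℝ[X])).coeff n

/-- `∑_{k ≥ 1} tr(Frob_p ^ k | H^(2i-1)) / (k p ^ (i k))`: the logarithm of the Euler factor at `p` of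
`L(H^(2i-1), s)` at `s = i`, if all factors have good reduction at `p`. -/
noncomputable def logFactor {m : ℕ} (f : Fin m → ℤ[X]) (i p : ℕ) : ℝ :=
  ∑' k : ℕ, traceH f (2 * i - 1) p (k + 1) / ((k + 1 : ℕ) * (p : ℝ) ^ (i * (k + 1)))

/-- The logarithm of the product over the odd primes `p ≤ x`. -/
noncomputable def logProduct {m : ℕ} (f : Fin m → ℤ[X]) (i x : ℕ) : ℝ :=
  ∑ p ∈ (Icc 1 x).filter (fun p => p.Prime ∧ p ≠ 2), logFactor f i p

/-- Modulo `δ`, the polynomial `a w² + b w + c` is the square of a nonzero polynomial `r w + s`. -/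
def IsSplit (a b c δ : ℚ[X]) : Prop :=
  ∃ r s : ℚ[X], δ ∣ a - r ^ 2 ∧ δ ∣ b - 2 * r * s ∧ δ ∣ c - s ^ 2 ∧ ¬ (δ ∣ r ∧ δ ∣ s)

/-- The number of the monic irreducible polynomials over which the conic splits. -/
noncomputable def sigma (a b c : ℚ[X]) : ℕ :=
  Nat.card {δ : ℚ[X] // δ.Monic ∧ Irreducible δ ∧ IsSplit a b c δ}

open Classical in
/-- `σ - 1` if `a` is a nonzero square, and `σ` otherwise. -/
noncomputable def rank (a b c : ℚ[X]) : ℝ :=
  (sigma a b c : ℝ) - if a ≠ 0 ∧ IsSquare a then 1 else 0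

/-- The number `R`. -/
noncomputable def cycleNumber {m : ℕ} (a b c : Fin m → ℤ[X]) (i : ℕ) : ℝ :=
  ((m - 1).choose (i - 1) : ℕ) * ∑ j, rank ((a j).map (Int.castRingHom ℚ))
    ((b j).map (Int.castRingHom ℚ)) ((c j).map (Int.castRingHom ℚ))

/-- The number `M`. -/
noncomputable def constituentNumber (m i : ℕ) : ℝ := ((1 + X + X ^ 2 : ℝ[X]) ^ m).coeff (2 * i - 1)

/-- **The Euler products at the central points for almost all products of curves.** -/
theorem result {m : ℕ} (a b c : Fin m → ℤ[X]) (hc : ∀ j, (c j).Monic)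
    (hodd : ∀ j, Odd (c j).natDegree) (ha : ∀ j, (a j).natDegree + 2 < (c j).natDegree)
    (hb : ∀ j, (b j).natDegree + 1 < (c j).natDegree)
    (hΔ : ∀ j, b j ^ 2 - 4 * a j * c j ≠ 0) (i : ℕ) (hi : 1 ≤ i) :
    -- the definitions make sense
    (∀ j (w : ℤ × ℤ), (family (a j) (b j) (c j) w).Monic ∧
      (family (a j) (b j) (c j) w).natDegree = (c j).natDegree) ∧
    (∀ z : Fin m → ℤ × ℤ, ∀ p : ℕ, p.Prime → p ≠ 2 → Summable fun k : ℕ =>
      traceH (fun j => family (a j) (b j) (c j) (z j)) (2 * i - 1) p (k + 1) /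
        ((k + 1 : ℕ) * (p : ℝ) ^ (i * (k + 1)))) ∧
    (∀ j, Finite {δ : ℚ[X] // δ.Monic ∧ Irreducible δ ∧ IsSplit ((a j).map (Int.castRingHom ℚ))
      ((b j).map (Int.castRingHom ℚ)) ((c j).map (Int.castRingHom ℚ)) δ}) ∧
    -- the law
    ∀ ε A : ℝ, 0 < ε → 0 < A → ∃ (k : ℕ) (K : ℝ), 0 < k ∧
      ∀ N : ℕ, 0 < N → ∀ U : Fin m → ℤ × ℤ, ∀ l : ℝ, 1 ≤ l →
        ({z : Fin m → ℤ × ℤ | (∀ j, (U j).1 < (z j).1 ∧ (z j).1 ≤ (U j).1 + N ∧
            (U j).2 < (z j).2 ∧ (z j).2 ≤ (U j).2 + N) ∧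
          ∃ x : ℕ, 16 ≤ x ∧ x ^ k ≤ N ∧
            l * Real.log (Real.log x) ^ (1 / 2 : ℝ) *
              (1 + Real.log (Real.log (Real.log x))) ^ ε <
              |logProduct (fun j => family (a j) (b j) (c j) (z j)) i x +
                (cycleNumber a b c i + constituentNumber m i / 2) *
                  Real.log (Real.log x)|}.ncard : ℝ) ≤
          K * l ^ (-A) * (N : ℝ) ^ (2 * m) := by
  classical
  have h : ∀ j, Pool.Agent.N430.BP.Hyp (a j) (b j) (c j) :=
    fun j => ⟨hc j, hodd j, ha j, hb j, hΔ j⟩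
  have hinjQ : Function.Injective (Int.castRingHom ℚ) := Int.cast_injective
  have hΔQ : ∀ j, ((b j).map (Int.castRingHom ℚ)) ^ 2 - 4 * (a j).map (Int.castRingHom ℚ) *
      (c j).map (Int.castRingHom ℚ) ≠ 0 := by
    intro j
    have h1 : (b j ^ 2 - 4 * a j * c j).map (Int.castRingHom ℚ) ≠ 0 :=
      (Polynomial.map_ne_zero_iff hinjQ).2 (hΔ j)
    rwa [Polynomial.map_sub, Polynomial.map_mul, Polynomial.map_mul, Polynomial.map_pow,
      Polynomial.map_ofNat] at h1
  have hsplit : ∀ j, ∀ δ : ℚ[X], IsSplit ((a j).map (Int.castRingHom ℚ))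
      ((b j).map (Int.castRingHom ℚ)) ((c j).map (Int.castRingHom ℚ)) δ ↔
      ∃ r s : ℚ[X], Pool.Agent.R410.CB.Spl ((a j).map (Int.castRingHom ℚ))
        ((b j).map (Int.castRingHom ℚ)) ((c j).map (Int.castRingHom ℚ)) δ r s := by
    intro j δ
    constructor
    · rintro ⟨r, s, h1, h2, h3, h4⟩
      exact ⟨r, s, ⟨h1, h2, h3, h4⟩⟩
    · rintro ⟨r, s, h1, h2, h3, h4⟩
      exact ⟨r, s, h1, h2, h3, h4⟩
  let eS : ∀ j, {δ : ℚ[X] // δ.Monic ∧ Irreducible δ ∧ IsSplit ((a j).map (Int.castRingHom ℚ))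
      ((b j).map (Int.castRingHom ℚ)) ((c j).map (Int.castRingHom ℚ)) δ} ≃
      Pool.Agent.R410.NG.SplT ((a j).map (Int.castRingHom ℚ)) ((b j).map (Int.castRingHom ℚ))
        ((c j).map (Int.castRingHom ℚ)) :=
    fun j => Equiv.subtypeEquivRight fun δ => by rw [hsplit j δ]
  have hrank : ∀ j, rank ((a j).map (Int.castRingHom ℚ)) ((b j).map (Int.castRingHom ℚ))
      ((c j).map (Int.castRingHom ℚ)) = Pool.Agent.N430.BP.rk (a j) (b j) (c j) := by
    intro j
    unfold rank sigma Pool.Agent.N430.BP.rk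
    rw [Nat.card_congr (eS j)]
  have hR : cycleNumber a b c i = Pool.Agent.N430.BP.ee m (2 * i - 1) 1 *
      ∑ j, Pool.Agent.N430.BP.rk (a j) (b j) (c j) := by
    unfold cycleNumber
    rw [Pool.Agent.N430.BP.ee_one hi, Finset.sum_congr rfl fun j _ => hrank j]
  have hM : constituentNumber m i = Pool.Agent.N430.BP.MM m i := by
    unfold constituentNumber Pool.Agent.N430.BP.MM Pool.Agent.N430.BP.kun
    simp only [map_one, one_mul, Finset.prod_const, card_univ, Fintype.card_fin]
  refine ⟨fun j w => Pool.Agent.N430.BP.fam_monic (hc j) (ha j) (hb j) w.1 w.2,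
    fun z p hp _ => Pool.Agent.N430.BP.TT_summable h hi hp z, ?_, ?_⟩
  · intro j
    have := Pool.Agent.R410.NG.finite_spl (two_ne_zero) (hΔQ j)
    exact Finite.of_equiv _ (eS j).symm
  intro ε A hε hA
  obtain ⟨k, K, hk, hmain⟩ := Pool.Agent.N430.BP.mainM h hi hε hA
  refine ⟨k, K, hk, fun N hN U l hl => ?_⟩
  rw [hR, hM]
  refine le_trans ?_ (hmain N hN U l hl)
  have hlog : ∀ (z : Fin m → ℤ × ℤ) (x : ℕ),
      logProduct (fun j => family (a j) (b j) (c j) (z j)) i x =
      ∑ p ∈ Pool.Agent.N430.BP.OP x, Pool.Agent.N430.BP.logL a b c i p z := by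
    intro z x
    unfold logProduct
    have e : (Icc 1 x).filter (fun p => p.Prime ∧ p ≠ 2) = Pool.Agent.N430.BP.OP x := by
      ext p
      rw [mem_filter, mem_Icc, Pool.Agent.N430.BP.mem_OP]
      constructor
      · rintro ⟨⟨_, h2⟩, h3⟩
        exact ⟨h2, h3⟩
      · rintro ⟨h2, h3⟩
        exact ⟨⟨h3.1.one_le, h2⟩, h3⟩
    rw [e]
    rfl
  simp only [hlog]
  set Exc := (Pool.Agent.N430.BP.BX m N).filter fun ω : Pool.Agent.N430.BP.Pt m =>
      ∃ x : ℕ, 16 ≤ x ∧ x ^ k ≤ N ∧
        l * Real.log (Real.log x) ^ (1 / 2 : ℝ) * (1 + Real.log (Real.log (Real.log x))) ^ ε <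
          |∑ p ∈ Pool.Agent.N430.BP.OP x,
            Pool.Agent.N430.BP.logL a b c i p (Pool.Agent.N430.BP.sh U ω) +
            (Pool.Agent.N430.BP.ee m (2 * i - 1) 1 * ∑ j, Pool.Agent.N430.BP.rk (a j) (b j) (c j) +
              Pool.Agent.N430.BP.MM m i / 2) * Real.log (Real.log x)| with hExc
  have hsub : {z : Fin m → ℤ × ℤ | (∀ j, (U j).1 < (z j).1 ∧ (z j).1 ≤ (U j).1 + N ∧
            (U j).2 < (z j).2 ∧ (z j).2 ≤ (U j).2 + N) ∧
          ∃ x : ℕ, 16 ≤ x ∧ x ^ k ≤ N ∧
            l * Real.log (Real.log x) ^ (1 / 2 : ℝ) *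
              (1 + Real.log (Real.log (Real.log x))) ^ ε <
              |∑ p ∈ Pool.Agent.N430.BP.OP x, Pool.Agent.N430.BP.logL a b c i p z +
                (Pool.Agent.N430.BP.ee m (2 * i - 1) 1 *
                  ∑ j, Pool.Agent.N430.BP.rk (a j) (b j) (c j) +
                  Pool.Agent.N430.BP.MM m i / 2) * Real.log (Real.log x)|} ⊆
      ((Exc.image fun ω : Pool.Agent.N430.BP.Pt m => Pool.Agent.N430.BP.sh U ω :
        Finset (Fin m → ℤ × ℤ)) : Set (Fin m → ℤ × ℤ)) := by
    rintro z ⟨h1, x, hx⟩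
    rw [coe_image, Set.mem_image]
    have ez : Pool.Agent.N430.BP.sh U
        (fun j => (((z j).1 - (U j).1).toNat, ((z j).2 - (U j).2).toNat)) = z := by
      funext j
      obtain ⟨g1, g2, g3, g4⟩ := h1 j
      unfold Pool.Agent.N430.BP.sh
      refine Prod.ext ?_ ?_
      · show (U j).1 + (((z j).1 - (U j).1).toNat : ℤ) = (z j).1
        rw [Int.toNat_of_nonneg (by omega)]
        ring
      · show (U j).2 + (((z j).2 - (U j).2).toNat : ℤ) = (z j).2
        rw [Int.toNat_of_nonneg (by omega)]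
        ring
    refine ⟨fun j => (((z j).1 - (U j).1).toNat, ((z j).2 - (U j).2).toNat), ?_, ez⟩
    rw [mem_coe, hExc, mem_filter, Pool.Agent.N430.BP.mem_BX]
    refine ⟨fun j => ?_, x, ?_⟩
    · obtain ⟨g1, g2, g3, g4⟩ := h1 j
      dsimp only
      refine ⟨⟨by omega, by omega⟩, ⟨by omega, by omega⟩⟩
    · rw [ez]
      exact hx
  have h5 := Set.ncard_le_ncard hsub (Finset.finite_toSet _)
  rw [Set.ncard_coe_finset] at h5
  have h6 := h5.trans card_image_le
  exact_mod_cast h6

end Pool.Agent.Results.MP_0b9e0b_ag.CentralProductsOfCurveProducts
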